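import Mathlib
import Pool.Agent.W313.HB.Stm

set_option autoImplicit false
set_option linter.all false

namespace Pool.Agent.W366.HB.GS

open Finset Polynomial
open Pool.Agent.W313.HB

lemma prod_primes_ne {s : Finset ℕ} (hs : ∀ p ∈ s, p.Prime) : (∏ p ∈ s, p) ≠ 0 :=
  Finset.prod_ne_zero_iff.2 (fun p hp => (hs p hp).ne_zero)

lemma primeFactors_sm (y a : ℕ) : (sm y a).primeFactors = a.primeFactors.filter (fun p => p ≤ y) := by
  unfold sm
  apply Nat.primeFactors_prod
  intro p hp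
  exact Nat.prime_of_mem_primeFactors (Finset.mem_filter.1 hp).1

lemma sm_sm (y1 y a : ℕ) (h : y1 ≤ y) : sm y1 (sm y a) = sm y1 a := by
  have : sm y1 (sm y a) = ∏ p ∈ (sm y a).primeFactors.filter (fun p => p ≤ y1), p := rfl
  rw [this, primeFactors_sm, Finset.filter_filter]
  unfold sm
  congr 1
  ext p
  simp only [Finset.mem_filter]
  constructor
  · rintro ⟨h1, h2, h3⟩
    exact ⟨h1, h3⟩
  · rintro ⟨h1, h3⟩
    exact ⟨h1, h3.trans h, h3⟩

theorem gs_ (h1 : S_TRANS) (h2 : S_PROD) : S_GS := by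
  classical
  obtain ⟨C, hC0, hT⟩ := h1
  intro ε c hε hc
  have hC1 : 0 < 4 * (C + 1) := by linarith
  obtain ⟨J, R1, hR1, hP⟩ := h2 (ε / (4 * (C + 1))) c (div_pos hε hC1) hc
  have ha0 : 0 ≤ 4 * C * (1 + c) / ε := by positivity
  have hb0 : 0 ≤ 16 / ε ^ 2 := by positivity
  refine ⟨J, R1 + 4 * C * (1 + c) / ε + 16 / ε ^ 2, by linarith, ?_⟩
  set R : ℝ := R1 + 4 * C * (1 + c) / ε + 16 / ε ^ 2 with hR
  have hRR1 : R1 ≤ R := by linarith
  have hRa : 4 * C * (1 + c) / ε ≤ R := by linarith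
  have hRb : 16 / ε ^ 2 ≤ R := by linarith
  have hR1' : 1 ≤ R := by linarith
  intro g hg0 hgs A hA
  have hg1 : ∀ j, 1 ≤ g j := by
    intro j
    induction j with
    | zero => linarith
    | succ j ih =>
      have := hgs j
      have h3 : 1 * 1 ≤ R * g j := mul_le_mul hR1' ih (by norm_num) (by linarith)
      linarith
  have hgm : Monotone g := by
    apply monotone_nat_of_le_succ
    intro j
    have h3 : 1 * g j ≤ R * g j := mul_le_mul_of_nonneg_right hR1' (by linarith [hg1 j])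
    linarith [hgs j]
  have hgJ := hg1 J
  have hlogA : R ≤ Real.log A := by
    have h3 : R * 1 ≤ R * g J := mul_le_mul_of_nonneg_left hgJ (by linarith)
    linarith
  have hlogA1 : 1 ≤ Real.log A := hR1'.trans hlogA
  have hlogA0 : 0 < Real.log A := by linarith
  have hApos : 0 < (A : ℝ) := by
    by_contra hcon
    have : (A : ℝ) = 0 := le_antisymm (not_lt.1 hcon) (Nat.cast_nonneg A)
    rw [this, Real.log_zero] at hlogA0
    exact lt_irrefl _ hlogA0
  have hAexp : R ≤ (A : ℝ) := by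
    have h3 : Real.log A ≤ (A : ℝ) - 1 := Real.log_le_sub_one_of_pos hApos
    linarith
  have hA2 : 2 ≤ A := by
    have h3 : Real.log A ≤ (A : ℝ) - 1 := Real.log_le_sub_one_of_pos hApos
    have h4 : (2 : ℝ) ≤ (A : ℝ) := by linarith
    exact_mod_cast h4
  set y : ℕ := ⌊Real.exp (c * g J)⌋₊ with hy
  have hcg : 0 ≤ c * g J := by
    have : 0 ≤ c := by linarith
    positivity
  have hy1 : 1 ≤ y := by
    apply Nat.le_floor
    have := Real.one_le_exp hcg
    simpa using this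
  have hylog : Real.log y ≤ c * g J := by
    have h3 : (y : ℝ) ≤ Real.exp (c * g J) := Nat.floor_le (Real.exp_pos _).le
    have h4 : (0 : ℝ) < (y : ℝ) := by exact_mod_cast hy1
    calc Real.log y ≤ Real.log (Real.exp (c * g J)) := Real.log_le_log h4 h3
      _ = c * g J := Real.log_exp _
  have hPg := hP g (by linarith) (by
    intro j
    have h3 : R1 * g j ≤ R * g j := mul_le_mul_of_nonneg_right hRR1 (by linarith [hg1 j])
    linarith [hgs j])
  have hTg := hT (fun s => ∀ j < J, Real.exp (g j) < (sm ⌊Real.exp (c * g j)⌋₊ s : ℝ)) y A hy1 hA2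
  have hset : ((Icc 1 A).filter (fun a : ℕ => Squarefree a ∧
      ∀ j < J, Real.exp (g j) < (sm ⌊Real.exp (c * g j)⌋₊ a : ℝ))) ⊆
      ((Icc 1 A).filter (fun a : ℕ => Squarefree a ∧
      ∀ j < J, Real.exp (g j) < (sm ⌊Real.exp (c * g j)⌋₊ (sm y a) : ℝ))) := by
    intro a ha
    rw [Finset.mem_filter] at ha ⊢
    refine ⟨ha.1, ha.2.1, ?_⟩
    intro j hj
    have h3 : ⌊Real.exp (c * g j)⌋₊ ≤ y := by
      apply Nat.floor_le_floor
      apply Real.exp_le_exp.2
      exact mul_le_mul_of_nonneg_left (hgm hj.le) (by linarith)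
    rw [sm_sm _ _ _ h3]
    exact ha.2.2 j hj
  have hcard : (((Icc 1 A).filter (fun a : ℕ => Squarefree a ∧
      ∀ j < J, Real.exp (g j) < (sm ⌊Real.exp (c * g j)⌋₊ a : ℝ))).card : ℝ) ≤
      (((Icc 1 A).filter (fun a : ℕ => Squarefree a ∧
      ∀ j < J, Real.exp (g j) < (sm ⌊Real.exp (c * g j)⌋₊ (sm y a) : ℝ))).card : ℝ) := by
    exact_mod_cast Finset.card_le_card hset
  have e1 : √(A : ℝ) ≤ ε * A / 4 := by
    have h3 : (4 / ε) ^ 2 ≤ (A : ℝ) := by
      have : (4 / ε) ^ 2 = 16 / ε ^ 2 := by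
        rw [div_pow]; norm_num
      rw [this]; linarith
    have h4 : 4 / ε ≤ √(A : ℝ) := Real.le_sqrt_of_sq_le h3
    have h5 : √(A : ℝ) * √(A : ℝ) = (A : ℝ) := Real.mul_self_sqrt hApos.le
    have h6 : 4 ≤ ε * √(A : ℝ) := by
      rw [div_le_iff₀ hε] at h4
      linarith
    have h7 : 0 ≤ √(A : ℝ) := Real.sqrt_nonneg _
    nlinarith [mul_le_mul_of_nonneg_right h6 h7]
  have e2 : C * A * (1 + Real.log y) / Real.log A ≤ ε * A / 4 := by
    rw [div_le_iff₀ hlogA0]
    have h3 : 1 + Real.log y ≤ (1 + c) * g J := by nlinarith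
    have h4 : 4 * C * (1 + c) ≤ ε * R := by
      rw [div_le_iff₀ hε] at hRa
      linarith
    have h5 : 4 * C * (1 + c) * g J ≤ ε * R * g J := mul_le_mul_of_nonneg_right h4 (by linarith)
    have h6 : ε * (R * g J) ≤ ε * Real.log A := mul_le_mul_of_nonneg_left hA hε.le
    have h7 : C * A * (1 + Real.log y) ≤ C * A * ((1 + c) * g J) :=
      mul_le_mul_of_nonneg_left h3 (by positivity)
    have h8 : 4 * (C * ((1 + c) * g J)) ≤ ε * Real.log A := by nlinarith
    have h9 : (A : ℝ) * (4 * (C * ((1 + c) * g J))) ≤ A * (ε * Real.log A) :=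
      mul_le_mul_of_nonneg_left h8 hApos.le
    nlinarith
  have e3 : C * A * ms y (fun s => ∀ j < J, Real.exp (g j) <
      (sm ⌊Real.exp (c * g j)⌋₊ s : ℝ)) ≤ ε * A / 4 := by
    have h3 : C * A * ms y (fun s => ∀ j < J, Real.exp (g j) <
      (sm ⌊Real.exp (c * g j)⌋₊ s : ℝ)) ≤ C * A * (ε / (4 * (C + 1))) :=
      mul_le_mul_of_nonneg_left hPg (by positivity)
    have h4 : C * A * (ε / (4 * (C + 1))) ≤ ε * A / 4 := by
      have h5 : C / (C + 1) ≤ 1 := by
        rw [div_le_one (by linarith)]; linarith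
      have h6 : C * A * (ε / (4 * (C + 1))) = (C / (C + 1)) * (ε * A / 4) := by
        field_simp
      rw [h6]
      have h7 : 0 ≤ ε * A / 4 := by positivity
      nlinarith [mul_le_mul_of_nonneg_right h5 h7]
    linarith
  have h8 : 0 ≤ ε * A := by positivity
  have hcoe : (((Icc 1 A).filter (fun a : ℕ => Squarefree a ∧
      ∀ j < J, Real.exp (g j) < (sm ⌊Real.exp (c * g j)⌋₊ (sm y a) : ℝ))).card : ℝ) ≤
      √(A : ℝ) + C * A * (1 + Real.log y) / Real.log A + C * A * ms y (fun s => ∀ j < J,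
        Real.exp (g j) < (sm ⌊Real.exp (c * g j)⌋₊ s : ℝ)) := by
    refine le_trans (le_of_eq ?_) hTg
    congr
  refine le_trans (le_of_eq ?_) (hcard.trans (hcoe.trans (by linarith : _ ≤ ε * (A : ℝ))))
  congr

end Pool.Agent.W366.HB.GS
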